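import Mathlib

/-!
# The equation `6 + x ^ 3 - y ^ 2 + y ^ 2 z ^ 2 = 0`: reciprocity, and the family `y ^ 2 + 2 = 3 s ^ 2`
-/

set_option autoImplicit false

namespace Pool.Agent.Cub79

open NumberTheorySymbols


/-- With `X = -x`: `X ^ 3 = 6 + y ^ 2 (z ^ 2 - 1)`. -/
theorem mod8 {X y z : ℤ} (h : X ^ 3 = 6 + y ^ 2 * (z ^ 2 - 1)) :
    y % 2 = 1 ∧ ((z % 4 = 2 ∧ X % 8 = 1) ∨ (z % 4 = 0 ∧ X % 8 = 5)) := by
  have h8 : X ^ 3 % 8 = (6 + y ^ 2 * (z ^ 2 - 1)) % 8 := by rw [h]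
  have hX : X % 8 = 0 ∨ X % 8 = 1 ∨ X % 8 = 2 ∨ X % 8 = 3 ∨ X % 8 = 4 ∨ X % 8 = 5 ∨ X % 8 = 6 ∨
    X % 8 = 7 := by omega
  have hy : y % 8 = 0 ∨ y % 8 = 1 ∨ y % 8 = 2 ∨ y % 8 = 3 ∨ y % 8 = 4 ∨ y % 8 = 5 ∨ y % 8 = 6 ∨
    y % 8 = 7 := by omega
  have hz : z % 8 = 0 ∨ z % 8 = 1 ∨ z % 8 = 2 ∨ z % 8 = 3 ∨ z % 8 = 4 ∨ z % 8 = 5 ∨ z % 8 = 6 ∨
    z % 8 = 7 := by omega
  rcases hX with hX | hX | hX | hX | hX | hX | hX | hX <;>
  rcases hy with hy | hy | hy | hy | hy | hy | hy | hy <;>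
  rcases hz with hz | hz | hz | hz | hz | hz | hz | hz <;>
  first
  | (exfalso; simp [pow_succ, Int.mul_emod, Int.add_emod, Int.sub_emod, hX, hy, hz] at h8; done)
  | (refine ⟨by omega, ?_⟩; omega)

theorem mod9 {X y z : ℤ} (h : X ^ 3 = 6 + y ^ 2 * (z ^ 2 - 1)) :
    (X % 3 = 0 ∧ (z % 9 = 2 ∨ z % 9 = 7)) ∨
      (X % 3 = 2 ∧ z % 3 = 0 ∧ (y % 9 = 4 ∨ y % 9 = 5)) := by
  have h9 : X ^ 3 % 9 = (6 + y ^ 2 * (z ^ 2 - 1)) % 9 := by rw [h]
  have hX : X % 9 = 0 ∨ X % 9 = 1 ∨ X % 9 = 2 ∨ X % 9 = 3 ∨ X % 9 = 4 ∨ X % 9 = 5 ∨ X % 9 = 6 ∨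
    X % 9 = 7 ∨ X % 9 = 8 := by omega
  have hy : y % 9 = 0 ∨ y % 9 = 1 ∨ y % 9 = 2 ∨ y % 9 = 3 ∨ y % 9 = 4 ∨ y % 9 = 5 ∨ y % 9 = 6 ∨
    y % 9 = 7 ∨ y % 9 = 8 := by omega
  have hz : z % 9 = 0 ∨ z % 9 = 1 ∨ z % 9 = 2 ∨ z % 9 = 3 ∨ z % 9 = 4 ∨ z % 9 = 5 ∨ z % 9 = 6 ∨
    z % 9 = 7 ∨ z % 9 = 8 := by omega
  rcases hX with hX | hX | hX | hX | hX | hX | hX | hX | hX <;>
  rcases hy with hy | hy | hy | hy | hy | hy | hy | hy | hy <;>
  rcases hz with hz | hz | hz | hz | hz | hz | hz | hz | hz <;>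
  first
  | (exfalso; simp [pow_succ, Int.mul_emod, Int.add_emod, Int.sub_emod, hX, hy, hz] at h9; done)
  | (left; refine ⟨by omega, ?_⟩; omega)
  | (right; refine ⟨by omega, by omega, ?_⟩; omega)




/-- If `n M = y ^ 2 D - 2` with `n` odd, then `y` and `n` are coprime, and so are `D` and `n`. -/
theorem coprime_of_sub_two {n M a b : ℤ} (hn : n % 2 = 1) (h : n * M = a * b - 2) :
    IsCoprime a n := by
  obtain ⟨k, hk⟩ : ∃ k, n = 2 * k + 1 := ⟨n / 2, by omega⟩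
  refine ⟨-k * b, 1 + k * M, ?_⟩
  have h1 : k * (n * M) = k * (a * b - 2) := by rw [h]
  linear_combination h1 + hk

/-- The reciprocity law: `n M = D y ^ 2 - 2`, `n = D = 3` modulo `4`. -/
theorem recip {n D : ℕ} {M y : ℤ} (hn : n % 4 = 3) (hD : D % 4 = 3)
    (h : (n : ℤ) * M = y ^ 2 * D - 2) : J((n : ℤ) | D) = - J(2 | n) := by
  have hn2 : (n : ℤ) % 2 = 1 := by omega
  have hy : IsCoprime y (n : ℤ) :=
    coprime_of_sub_two (b := y * D) hn2 (by rw [h]; ring)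
  have h1 : J((D : ℤ) * y ^ 2 | n) = J(2 | n) := by
    apply jacobiSym.mod_left'
    have : (D : ℤ) * y ^ 2 = 2 + n * M := by rw [h]; ring
    rw [this, Int.add_mul_emod_self_left]
  rw [jacobiSym.mul_left, jacobiSym.sq_one' (Int.isCoprime_iff_gcd_eq_one.1 hy), mul_one] at h1
  rw [jacobiSym.quadratic_reciprocity_three_mod_four hn hD, h1]

theorem two_of_seven {n : ℕ} (hn : n % 8 = 7) : J(2 | n) = 1 := by
  rw [jacobiSym.at_two (Nat.odd_iff.2 (by omega)), ZMod.χ₈_nat_eq_if_mod_eight,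
    if_neg (by omega), if_pos (by omega)]

theorem two_of_three {n : ℕ} (hn : n % 8 = 3) : J(2 | n) = -1 := by
  rw [jacobiSym.at_two (Nat.odd_iff.2 (by omega)), ZMod.χ₈_nat_eq_if_mod_eight,
    if_neg (by omega), if_neg (by omega)]

theorem three_of_seven {n : ℕ} (hn : n % 12 = 7) : J(3 | n) = -1 := by
  have h1 : J(((3 : ℕ) : ℤ) | n) = - J((n : ℤ) | 3) :=
    jacobiSym.quadratic_reciprocity_three_mod_four (by norm_num) (by omega)
  have h2 : J((n : ℤ) | 3) = J(1 | 3) := by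
    apply jacobiSym.mod_left'
    omega
  rw [h2, jacobiSym.one_left] at h1
  exact_mod_cast h1

/-- `n = 7` modulo `12` does not divide `A ^ 2 - 3 s ^ 2` with a coprime quotient. -/
theorem no_seven : ∀ n : ℕ, n % 12 = 7 → ∀ A s M : ℤ, (n : ℤ) * M = A ^ 2 - 3 * s ^ 2 →
    IsCoprime (n : ℤ) M → False := by
  intro n
  induction n using Nat.strong_induction_on with
  | _ n ih =>
  intro hn A s M h hc
  by_cases hs : IsCoprime s (n : ℤ)
  · -- the Jacobi symbol of `3` is `1`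
    have h3 : IsCoprime (3 : ℤ) (n : ℤ) := by
      refine ⟨-(((n : ℤ) - 1) / 3), 1, ?_⟩
      omega
    have hA : IsCoprime A (n : ℤ) := by
      have h4 : IsCoprime (3 * s ^ 2) (n : ℤ) := h3.mul_left hs.pow_left
      have h5 : A ^ 2 = 3 * s ^ 2 + n * M := by rw [h]; ring
      have h6 : IsCoprime (A ^ 2) (n : ℤ) := by
        rw [h5]
        exact h4.add_mul_left_left M
      exact (IsCoprime.pow_left_iff (by norm_num)).1 h6
    have h1 : J(3 * s ^ 2 | n) = J(A ^ 2 | n) := by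
      apply jacobiSym.mod_left'
      have : (3 : ℤ) * s ^ 2 = A ^ 2 + n * (-M) := by linear_combination h
      rw [this, Int.add_mul_emod_self_left]
    rw [jacobiSym.mul_left, jacobiSym.sq_one' (Int.isCoprime_iff_gcd_eq_one.1 hs),
      jacobiSym.sq_one' (Int.isCoprime_iff_gcd_eq_one.1 hA), three_of_seven hn] at h1
    norm_num at h1
  · -- a common prime factor
    rw [Int.isCoprime_iff_gcd_eq_one] at hs
    obtain ⟨q, hq, hqd⟩ := Nat.exists_prime_and_dvd hs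
    have hqs : (q : ℤ) ∣ s := (Int.natCast_dvd_natCast.2 hqd).trans (Int.gcd_dvd_left _ _)
    have hqn : (q : ℤ) ∣ (n : ℤ) := (Int.natCast_dvd_natCast.2 hqd).trans (Int.gcd_dvd_right _ _)
    have hqp : Prime (q : ℤ) := Nat.prime_iff_prime_int.1 hq
    have hqA : (q : ℤ) ∣ A := by
      apply hqp.dvd_of_dvd_pow (n := 2)
      have h5 : A ^ 2 = 3 * s ^ 2 + n * M := by rw [h]; ring
      rw [h5]
      exact dvd_add ((hqs.pow (by norm_num : (2 : ℕ) ≠ 0) |>.mul_left 3)) (hqn.mul_right M)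
    obtain ⟨A', rfl⟩ := hqA
    obtain ⟨s', rfl⟩ := hqs
    have hqn' : q ∣ n := Int.natCast_dvd_natCast.1 hqn
    obtain ⟨k, rfl⟩ := hqn'
    have hq0 : (q : ℤ) ≠ 0 := hqp.ne_zero
    have h6 : (k : ℤ) * M = q * (A' ^ 2 - 3 * s' ^ 2) := by
      apply mul_left_cancel₀ hq0
      push_cast at h
      linear_combination h
    have hqM : ¬ (q : ℤ) ∣ M := by
      intro hd
      have h7 : IsUnit (q : ℤ) := hc.isUnit_of_dvd' hqn hd
      exact hqp.not_isUnit h7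
    have hqk : (q : ℤ) ∣ (k : ℤ) := by
      have h8 : (q : ℤ) ∣ (k : ℤ) * M := by rw [h6]; exact dvd_mul_right _ _
      exact (hqp.dvd_or_dvd h8).resolve_right hqM
    have hqk' : q ∣ k := Int.natCast_dvd_natCast.1 hqk
    obtain ⟨m, rfl⟩ := hqk'
    have h9 : (m : ℤ) * M = A' ^ 2 - 3 * s' ^ 2 := by
      apply mul_left_cancel₀ hq0
      push_cast at h6
      linear_combination h6
    have hq12 : q % 12 = 1 ∨ q % 12 = 5 ∨ q % 12 = 7 ∨ q % 12 = 11 := by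
      have e2 : ¬ 2 ∣ q * (q * m) := by omega
      have e3 : ¬ 3 ∣ q * (q * m) := by omega
      have f2 : ¬ 2 ∣ q := fun hd => e2 (hd.mul_right _)
      have f3 : ¬ 3 ∣ q := fun hd => e3 (hd.mul_right _)
      omega
    have hm : m % 12 = 7 := by
      have hmod : (q * (q * m)) % 12 = m % 12 := by
        rw [← mul_assoc, Nat.mul_mod, Nat.mul_mod q q]
        rcases hq12 with hh | hh | hh | hh <;> rw [hh] <;> norm_num <;> omega
      omega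
    have hm0 : 0 < m := by omega
    have hq2 : 2 ≤ q := hq.two_le
    have hlt : m < q * (q * m) := by nlinarith [Nat.mul_le_mul hq2 (Nat.mul_le_mul hq2 (le_refl m))]
    refine ih m hlt hm A' s' M h9 ?_
    have hc' : IsCoprime (((q * q : ℕ) : ℤ) * (m : ℤ)) M := by
      have e : ((q * (q * m) : ℕ) : ℤ) = ((q * q : ℕ) : ℤ) * (m : ℤ) := by push_cast; ring
      rwa [e] at hc
    exact hc'.of_mul_left_right




theorem pos_quad (X : ℤ) : 0 < X ^ 2 + 2 * X + 4 := by nlinarith [sq_nonneg (X + 1)]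

/-- The case `z = 0` (Mordell). -/
theorem z_ne_zero {X y z : ℤ} (h : X ^ 3 = 6 + y ^ 2 * (z ^ 2 - 1)) : z ≠ 0 := by
  rintro rfl
  have h8 := mod8 h
  have hX : X % 8 = 5 := by omega
  -- `(2 - X) (X ^ 2 + 2 X + 4) = y ^ 2 + 2`
  have e : (2 - X) * (X ^ 2 + 2 * X + 4) = y ^ 2 + 2 := by linear_combination (-1 : ℤ) * h
  have hpos : 0 < 2 - X := by
    by_contra hcon
    push Not at hcon
    have h1 := mul_nonneg_of_nonpos_of_nonpos hcon (neg_nonpos.2 (pos_quad X).le)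
    nlinarith [sq_nonneg y]
  obtain ⟨n, hn⟩ : ∃ n : ℕ, 2 - X = n := ⟨(2 - X).toNat, (Int.toNat_of_nonneg hpos.le).symm⟩
  have hn8 : n % 8 = 5 := by omega
  have hn2 : (n : ℤ) % 2 = 1 := by omega
  rw [hn] at e
  have hy : IsCoprime y (n : ℤ) :=
    coprime_of_sub_two (b := -y) (M := -(X ^ 2 + 2 * X + 4)) hn2 (by linear_combination (-1 : ℤ) * e)
  have h1 : J(-2 | n) = J(y ^ 2 | n) := by
    apply jacobiSym.mod_left'
    have : (y : ℤ) ^ 2 = -2 + n * (X ^ 2 + 2 * X + 4) := by linear_combination (-1 : ℤ) * e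
    rw [this, Int.add_mul_emod_self_left]
  rw [jacobiSym.sq_one' (Int.isCoprime_iff_gcd_eq_one.1 hy),
    jacobiSym.at_neg_two (Nat.odd_iff.2 (by omega)), ZMod.χ₈'_nat_eq_if_mod_eight,
    if_neg (by omega), if_neg (by omega)] at h1
  norm_num at h1

theorem big {X y z : ℤ} (h : X ^ 3 = 6 + y ^ 2 * (z ^ 2 - 1)) : 2 < X ∧ 3 ≤ z ^ 2 - 1 := by
  have hz := z_ne_zero h
  have h8 := mod8 h
  have hz2 : 3 ≤ z ^ 2 - 1 := by
    have : 2 ≤ |z| := by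
      rcases abs_cases z with ⟨h1, h2⟩ | ⟨h1, h2⟩ <;> omega
    nlinarith [sq_abs z]
  have hy : 1 ≤ y ^ 2 := by
    have : y ≠ 0 := by
      rintro rfl
      have := h8.1
      omega
    have := sq_pos_of_ne_zero this
    omega
  refine ⟨?_, hz2⟩
  by_contra hcon
  push Not at hcon
  have h1 : X ^ 3 ≤ 2 ^ 3 := by
    rcases le_or_gt 0 X with h0 | h0
    · exact pow_le_pow_left₀ h0 hcon 3
    · have : X ^ 3 < 0 := by
        have := pow_pos (neg_pos.2 h0) 3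
        nlinarith
      linarith
  nlinarith

/-- The reciprocity law for the solutions. -/
theorem law {X y z : ℤ} (h : X ^ 3 = 6 + y ^ 2 * (z ^ 2 - 1)) :
    (z % 4 = 2 ∧ J(X - 2 | (z ^ 2 - 1).natAbs) = -1) ∨
      (z % 4 = 0 ∧ J(X - 2 | (z ^ 2 - 1).natAbs) = 1) := by
  obtain ⟨hX, hz⟩ := big h
  have h8 := mod8 h
  obtain ⟨n, hn⟩ : ∃ n : ℕ, X - 2 = n := ⟨(X - 2).toNat, (Int.toNat_of_nonneg (by omega)).symm⟩
  obtain ⟨D, hD⟩ : ∃ D : ℕ, z ^ 2 - 1 = D :=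
    ⟨(z ^ 2 - 1).toNat, (Int.toNat_of_nonneg (by omega)).symm⟩
  have hDn : (z ^ 2 - 1).natAbs = D := by rw [hD, Int.natAbs_natCast]
  have hD4 : D % 4 = 3 := by
    have : z ^ 2 % 4 = 0 := by
      obtain ⟨k, hk⟩ : ∃ k, z = 2 * k := ⟨z / 2, by omega⟩
      rw [hk]
      have : (2 * k) ^ 2 = 4 * k ^ 2 := by ring
      omega
    omega
  have hn4 : n % 4 = 3 := by omega
  have e : (n : ℤ) * (X ^ 2 + 2 * X + 4) = y ^ 2 * D - 2 := by
    rw [← hn, ← hD]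
    linear_combination h
  have hr := recip hn4 hD4 e
  rw [hn, hDn, hr]
  rcases h8.2 with ⟨a1, a2⟩ | ⟨a1, a2⟩
  · left
    refine ⟨a1, ?_⟩
    rw [two_of_seven (by omega)]
  · right
    refine ⟨a1, ?_⟩
    rw [two_of_three (by omega)]
    norm_num

theorem coprime_D {X y z : ℤ} (h : X ^ 3 = 6 + y ^ 2 * (z ^ 2 - 1)) :
    IsCoprime (z ^ 2 - 1) (X - 2) := by
  have h8 := mod8 h
  exact coprime_of_sub_two (b := y ^ 2) (M := X ^ 2 + 2 * X + 4) (by omega)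
    (by linear_combination h)

theorem not_three_sq {X y z : ℤ} (h : X ^ 3 = 6 + y ^ 2 * (z ^ 2 - 1)) (w : ℤ) :
    z ^ 2 - 1 ≠ 3 * w ^ 2 := by
  intro hw
  have h9 := mod9 h
  have hX3 : X % 3 = 0 := by
    rcases h9 with h1 | h1
    · exact h1.1
    · exfalso
      obtain ⟨k, hk⟩ : ∃ k, z = 3 * k := ⟨z / 3, by omega⟩
      rw [hk] at hw
      have : (3 * k) ^ 2 = 3 * (3 * k ^ 2) := by ring
      omega
  have hc := coprime_D h
  rw [hw] at hc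
  have hcw : IsCoprime w (X - 2) := by
    have h1 : IsCoprime (w ^ 2) (X - 2) := hc.of_mul_left_right
    exact (IsCoprime.pow_left_iff (by norm_num)).1 h1
  have hJ : J(X - 2 | (z ^ 2 - 1).natAbs) = 1 := by
    have e : (z ^ 2 - 1).natAbs = 3 * w.natAbs ^ 2 := by
      rw [hw, Int.natAbs_mul, Int.natAbs_pow]
      rfl
    have hw0 : w.natAbs ≠ 0 := by
      intro h0
      have : w = 0 := Int.natAbs_eq_zero.1 h0
      have hb := (big h).2
      rw [hw, this] at hb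
      norm_num at hb
    have h3 : J(X - 2 | 3) = J(1 | 3) := by
      apply jacobiSym.mod_left'
      omega
    have hg : (X - 2).gcd (w.natAbs : ℤ) = 1 := by
      rw [Int.gcd_comm]
      have := Int.isCoprime_iff_gcd_eq_one.1 hcw
      rwa [Int.gcd_eq_natAbs, Int.natAbs_natCast, ← Int.gcd_eq_natAbs]
    have h4 : J(X - 2 | w.natAbs ^ 2) = 1 := by
      rw [jacobiSym.pow_right, jacobiSym.sq_one hg]
    rw [e, jacobiSym.mul_right' _ (by norm_num) (pow_ne_zero 2 hw0), h3, h4, jacobiSym.one_left]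
    norm_num
  rcases law h with ⟨-, h1⟩ | ⟨h1, -⟩
  · rw [hJ] at h1
    norm_num at h1
  · -- `z` is not divisible by `4`
    obtain ⟨k, hk⟩ : ∃ k, z = 4 * k := ⟨z / 4, by omega⟩
    rw [hk] at hw
    have e1 : (4 * k) ^ 2 = 8 * (2 * k ^ 2) := by ring
    have e2 : w ^ 2 % 8 = 0 ∨ w ^ 2 % 8 = 1 ∨ w ^ 2 % 8 = 4 := by
      have : w % 8 = 0 ∨ w % 8 = 1 ∨ w % 8 = 2 ∨ w % 8 = 3 ∨ w % 8 = 4 ∨ w % 8 = 5 ∨ w % 8 = 6 ∨
        w % 8 = 7 := by omega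
      rcases this with hh | hh | hh | hh | hh | hh | hh | hh <;>
        simp [pow_succ, Int.mul_emod, hh]
    omega

theorem not_y_family {X y z : ℤ} (h : X ^ 3 = 6 + y ^ 2 * (z ^ 2 - 1)) {s : ℤ}
    (hs : y ^ 2 + 2 = 3 * s ^ 2) : (3 : ℤ) ∣ s := by
  by_contra hcon
  have h8 := mod8 h
  have hX3 : X % 3 = 0 := by
    rcases mod9 h with h1 | ⟨-, -, h1⟩
    · exact h1.1
    · exfalso
      have e1 : (y ^ 2 + 2) % 9 = 0 := by
        rcases h1 with h1 | h1 <;> simp [pow_succ, Int.mul_emod, Int.add_emod, h1]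
      rw [hs] at e1
      have e2 : (3 : ℤ) ∣ s ^ 2 := by omega
      exact hcon (Int.prime_three.dvd_of_dvd_pow e2)
  obtain ⟨hX, -⟩ := big h
  obtain ⟨n, hn⟩ : ∃ n : ℕ, X - 2 = n := ⟨(X - 2).toNat, (Int.toNat_of_nonneg (by omega)).symm⟩
  have hn12 : n % 12 = 7 := by omega
  refine no_seven n hn12 (y * z) s (X ^ 2 + 2 * X + 4) ?_ ?_
  · rw [← hn]
    linear_combination h - hs
  · -- `X ^ 2 + 2 X + 4 = n ^ 2 + 6 n + 12`
    have e : X ^ 2 + 2 * X + 4 = 12 + n * (n + 6) := by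
      have : X = n + 2 := by omega
      rw [this]
      ring
    rw [e]
    have h12 : IsCoprime (n : ℤ) 12 := by
      refine ⟨7, -((7 * (n : ℤ) - 1) / 12), ?_⟩
      omega
    exact h12.add_mul_left_right _


/-- The second reciprocity law. -/
theorem ylaw_aux {X y z : ℤ} (h : X ^ 3 = 6 + y ^ 2 * (z ^ 2 - 1)) :
    J(X - 2 | (y ^ 2 + 2).natAbs) ≠ 1 := by
  intro h1
  obtain ⟨hX, -⟩ := big h
  have h8 := mod8 h
  obtain ⟨n, hn⟩ : ∃ n : ℕ, X - 2 = n := ⟨(X - 2).toNat, (Int.toNat_of_nonneg (by omega)).symm⟩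
  obtain ⟨m, hm⟩ : ∃ m : ℕ, y ^ 2 + 2 = m :=
    ⟨(y ^ 2 + 2).toNat, (Int.toNat_of_nonneg (by positivity)).symm⟩
  have hmn : (y ^ 2 + 2).natAbs = m := by rw [hm, Int.natAbs_natCast]
  have hm4 : m % 4 = 3 := by
    obtain ⟨k, hk⟩ : ∃ k, y = 2 * k + 1 := ⟨y / 2, by omega⟩
    have : y ^ 2 = 4 * (k ^ 2 + k) + 1 := by rw [hk]; ring
    omega
  have hn4 : n % 4 = 3 := by omega
  rw [hn, hmn] at h1
  have hc : IsCoprime (m : ℤ) (n : ℤ) := by
    have hne : NeZero m := ⟨by omega⟩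
    rw [Int.isCoprime_iff_gcd_eq_one, Int.gcd_comm]
    by_contra hcon
    have : J((n : ℤ) | m) = 0 := jacobiSym.eq_zero_iff_not_coprime.2 hcon
    rw [this] at h1
    norm_num at h1
  have e : (n : ℤ) * (X ^ 2 + 2 * X + 4) = (y * z) ^ 2 - m := by
    rw [← hn, ← hm]
    linear_combination h
  have hyz : IsCoprime (y * z) (n : ℤ) := by
    have h5 : (y * z) ^ 2 = m + n * (X ^ 2 + 2 * X + 4) := by rw [e]; ring
    have h6 : IsCoprime ((y * z) ^ 2) (n : ℤ) := by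
      rw [h5]
      exact hc.add_mul_left_left _
    exact (IsCoprime.pow_left_iff (by norm_num)).1 h6
  have h2 : J((m : ℤ) | n) = 1 := by
    have h3 : J((m : ℤ) | n) = J((y * z) ^ 2 | n) := by
      apply jacobiSym.mod_left'
      have : (y * z) ^ 2 = m + n * (X ^ 2 + 2 * X + 4) := by rw [e]; ring
      rw [this, Int.add_mul_emod_self_left]
    rw [h3, jacobiSym.sq_one' (Int.isCoprime_iff_gcd_eq_one.1 hyz)]
  rw [jacobiSym.quadratic_reciprocity_three_mod_four hn4 hm4, h2] at h1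
  norm_num at h1

theorem to_X {x y z : ℤ} (h : 6 + x ^ 3 - y ^ 2 + y ^ 2 * z ^ 2 = 0) :
    (-x) ^ 3 = 6 + y ^ 2 * (z ^ 2 - 1) := by linear_combination (-1 : ℤ) * h

/-- For every solution the Jacobi symbol of `- x - 2` over `y ^ 2 + 2` is not `1`. -/
theorem ylaw {x y z : ℤ} (h : 6 + x ^ 3 - y ^ 2 + y ^ 2 * z ^ 2 = 0) :
    J(-x - 2 | (y ^ 2 + 2).natAbs) ≠ 1 := ylaw_aux (to_X h)

/-- For every solution: the Jacobi symbol of `- x - 2` over `z ^ 2 - 1`. -/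
theorem zlaw {x y z : ℤ} (h : 6 + x ^ 3 - y ^ 2 + y ^ 2 * z ^ 2 = 0) :
    (z % 4 = 2 ∧ J(-x - 2 | (z ^ 2 - 1).natAbs) = -1) ∨
      (z % 4 = 0 ∧ J(-x - 2 | (z ^ 2 - 1).natAbs) = 1) := law (to_X h)

theorem yfam (x y z s : ℤ) (hs : ¬ 3 ∣ s) (hy : y ^ 2 + 2 = 3 * s ^ 2) :
    6 + x ^ 3 - y ^ 2 + y ^ 2 * z ^ 2 ≠ 0 := fun h => hs (not_y_family (to_X h) hy)

end Pool.Agent.Cub79
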